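import Mathlib

/-!
MP_76d2cf_co.  The ratio `r_0 / r_1` of periods of inside-out Ehrhart quasipolynomials need not be an
integer.
-/

namespace Pool.Agent.Results.MP_76d2cf_co.PeriodRatio

open Set

variable {d : ℕ}

/-- `P` is a rational convex polytope: the convex hull of finitely many rational points. -/
def IsRationalPolytope (P : Set (Fin d → ℝ)) : Prop :=
  ∃ V : Finset (Fin d → ℚ), P = convexHull ℝ ((fun (v : Fin d → ℚ) (i : Fin d) => (v i : ℝ)) '' V)

/-- dimension of `P` -/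
noncomputable def dimension (P : Set (Fin d → ℝ)) : ℕ := Module.finrank ℝ (vectorSpan ℝ P)

/-- a rational (affine) hyperplane -/
def IsRationalHyperplane (h : Set (Fin d → ℝ)) : Prop :=
  ∃ (a : Fin d → ℚ) (b : ℚ), a ≠ 0 ∧ h = {x | ∑ i, (a i : ℝ) * x i = (b : ℝ)}

/-- inside-out polytope `(P, H)` of dimension at least one -/
structure IsInsideOut (P : Set (Fin d → ℝ)) (H : Set (Set (Fin d → ℝ))) : Prop where
  rational : IsRationalPolytope P
  dim_pos : 1 ≤ dimension P
  finite : H.Finite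
  hyperplane : ∀ h ∈ H, IsRationalHyperplane h
  not_contains : ∀ h ∈ H, ¬ P ⊆ h
  transverse : ∀ S ⊆ H, S.Nonempty → (⋂₀ S ∩ P).Nonempty →
    (⋂₀ S ∩ intrinsicInterior ℝ P).Nonempty

/-- the lattice `((1/t) ℤ)^d` -/
def lat (d t : ℕ) : Set (Fin d → ℝ) := {x | ∃ z : Fin d → ℤ, ∀ i, x i = (z i : ℝ) / t}

/-- `E°(t)` -/
noncomputable def Eo (P : Set (Fin d → ℝ)) (H : Set (Set (Fin d → ℝ))) (t : ℕ) : ℕ :=
  ((intrinsicInterior ℝ P \ ⋃₀ H) ∩ lat d t).ncard

/-- `E^w(t)` -/
noncomputable def Ew (P : Set (Fin d → ℝ)) (t : ℕ) : ℕ :=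
  (intrinsicInterior ℝ P ∩ lat d t).ncard

/-- `E(t) = ∑_{k ≤ δ} c_k(t) t^k` for `t ≥ 1` with periodic coefficient functions `c_k`. -/
def IsQuasi (E : ℕ → ℕ) (δ : ℕ) (c : ℕ → ℕ → ℚ) : Prop :=
  (∀ k ≤ δ, ∃ N, 0 < N ∧ ∀ t, c k (t + N) = c k t) ∧
    ∀ t, 1 ≤ t → (E t : ℚ) = ∑ k ∈ Finset.range (δ + 1), c k t * (t : ℚ) ^ k

/-- `p` is the minimal period of `f`. -/
def IsMinPeriod (f : ℕ → ℚ) (p : ℕ) : Prop := IsLeast {N | 0 < N ∧ ∀ t, f (t + N) = f t} p

/-- The assertion of Q1. -/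
def Conjecture : Prop :=
  ∀ (d : ℕ) (P : Set (Fin d → ℝ)) (H : Set (Set (Fin d → ℝ))), IsInsideOut P H →
    ∀ c cw : ℕ → ℕ → ℚ, IsQuasi (Eo P H) (dimension P) c → IsQuasi (Ew P) (dimension P) cw →
    ∀ p pw : ℕ → ℕ, (∀ k ≤ dimension P, IsMinPeriod (c k) (p k)) →
      (∀ k ≤ dimension P, IsMinPeriod (cw k) (pw k)) →
      ∀ k, 1 ≤ k → k ≤ dimension P → p k * pw (k - 1) ∣ p (k - 1) * pw k

/-! ### The example -/

/-- the triangle with vertices `(0,-2)`, `(0,2)`, `(1/2,1/2)` -/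
def V : Finset (Fin 2 → ℚ) := {![0, -2], ![0, 2], ![1 / 2, 1 / 2]}

def P : Set (Fin 2 → ℝ) := convexHull ℝ ((fun (v : Fin 2 → ℚ) (i : Fin 2) => (v i : ℝ)) '' V)

/-- the line `x = y` -/
def h : Set (Fin 2 → ℝ) := {x | x 0 = x 1}

theorem mem_P (x : Fin 2 → ℝ) : x ∈ P ↔ 0 ≤ x 0 ∧ 5 * x 0 - x 1 ≤ 2 ∧ 3 * x 0 + x 1 ≤ 2 := by
  constructor
  · intro hx
    have hconv : Convex ℝ {x : Fin 2 → ℝ | 0 ≤ x 0 ∧ 5 * x 0 - x 1 ≤ 2 ∧ 3 * x 0 + x 1 ≤ 2} := by
      intro u hu v hv a b ha hb hab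
      obtain ⟨u1, u2, u3⟩ := hu
      obtain ⟨v1, v2, v3⟩ := hv
      refine ⟨?_, ?_, ?_⟩
      · change 0 ≤ a * u 0 + b * v 0
        positivity
      · change 5 * (a * u 0 + b * v 0) - (a * u 1 + b * v 1) ≤ 2
        nlinarith [mul_le_mul_of_nonneg_left u2 ha, mul_le_mul_of_nonneg_left v2 hb]
      · change 3 * (a * u 0 + b * v 0) + (a * u 1 + b * v 1) ≤ 2
        nlinarith [mul_le_mul_of_nonneg_left u3 ha, mul_le_mul_of_nonneg_left v3 hb]
    refine convexHull_min ?_ hconv hx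
    rintro y ⟨v, hv, rfl⟩
    simp only [V, Finset.coe_insert, Finset.coe_singleton, mem_insert_iff, mem_singleton_iff] at hv
    rcases hv with rfl | rfl | rfl
    · refine ⟨?_, ?_, ?_⟩ <;> norm_num
    · refine ⟨?_, ?_, ?_⟩ <;> norm_num
    · refine ⟨?_, ?_, ?_⟩ <;> norm_num
  · rintro ⟨h0, h1, h2⟩
    have hc := convex_convexHull ℝ ((fun (v : Fin 2 → ℚ) (i : Fin 2) => (v i : ℝ)) '' V)
    have m1 : (fun i : Fin 2 => (((![0, -2] : Fin 2 → ℚ) i : ℚ) : ℝ)) ∈ P :=
      subset_convexHull ℝ _ ⟨_, by simp [V], rfl⟩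
    have m2 : (fun i : Fin 2 => (((![0, 2] : Fin 2 → ℚ) i : ℚ) : ℝ)) ∈ P :=
      subset_convexHull ℝ _ ⟨_, by simp [V], rfl⟩
    have m3 : (fun i : Fin 2 => (((![1 / 2, 1 / 2] : Fin 2 → ℚ) i : ℚ) : ℝ)) ∈ P :=
      subset_convexHull ℝ _ ⟨_, by simp [V], rfl⟩
    -- barycentric coordinates
    have hx : x = ∑ i : Fin 3, (![(2 - 3 * x 0 - x 1) / 4, (2 - 5 * x 0 + x 1) / 4, 2 * x 0] : Fin 3 → ℝ) i •
        (![(fun i : Fin 2 => (((![0, -2] : Fin 2 → ℚ) i : ℚ) : ℝ)),
          (fun i : Fin 2 => (((![0, 2] : Fin 2 → ℚ) i : ℚ) : ℝ)),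
          (fun i : Fin 2 => (((![1 / 2, 1 / 2] : Fin 2 → ℚ) i : ℚ) : ℝ))] : Fin 3 → Fin 2 → ℝ) i := by
      funext k
      fin_cases k
      · simp [Fin.sum_univ_three]; ring
      · simp [Fin.sum_univ_three]; ring
    rw [hx]
    refine hc.sum_mem ?_ ?_ ?_
    · intro i _
      fin_cases i
      · change 0 ≤ (2 - 3 * x 0 - x 1) / 4; linarith
      · change 0 ≤ (2 - 5 * x 0 + x 1) / 4; linarith
      · change 0 ≤ 2 * x 0; linarith
    · simp [Fin.sum_univ_three]; ring
    · intro i _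
      fin_cases i
      · exact m1
      · exact m2
      · exact m3

theorem interior_P : interior P = {x | 0 < x 0 ∧ 5 * x 0 - x 1 < 2 ∧ 3 * x 0 + x 1 < 2} := by
  apply Subset.antisymm
  · intro x hx
    rw [mem_interior_iff_mem_nhds, Metric.mem_nhds_iff] at hx
    obtain ⟨ε, hε, hball⟩ := hx
    have key : ∀ s : Fin 2 → ℝ, (∀ i, |s i| ≤ 1) → x + (ε / 2) • s ∈ P := by
      intro s hs
      apply hball
      rw [Metric.mem_ball, dist_pi_lt_iff hε]
      intro i
      rw [Real.dist_eq]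
      have : (x + (ε / 2) • s) i - x i = ε / 2 * s i := by simp
      rw [this, abs_mul, abs_of_pos (by linarith : 0 < ε / 2)]
      nlinarith [hs i, abs_nonneg (s i)]
    have k1 := (mem_P _).1 (key ![-1, 0] (by intro i; fin_cases i <;> simp))
    have k2 := (mem_P _).1 (key ![0, -1] (by intro i; fin_cases i <;> simp))
    have k3 := (mem_P _).1 (key ![0, 1] (by intro i; fin_cases i <;> simp))
    simp at k1 k2 k3
    exact ⟨by linarith [k1.1], by linarith [k2.2.1], by linarith [k3.2.2]⟩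
  · apply interior_maximal
    · rintro x ⟨a, b, c⟩
      exact (mem_P x).2 ⟨a.le, b.le, c.le⟩
    · have c0 : Continuous (fun x : Fin 2 → ℝ => x 0) := continuous_apply 0
      have c1 : Continuous (fun x : Fin 2 → ℝ => x 1) := continuous_apply 1
      have o1 : IsOpen {x : Fin 2 → ℝ | 0 < x 0} := isOpen_lt continuous_const c0
      have o2 : IsOpen {x : Fin 2 → ℝ | 5 * x 0 - x 1 < 2} := isOpen_lt (by fun_prop) continuous_const
      have o3 : IsOpen {x : Fin 2 → ℝ | 3 * x 0 + x 1 < 2} := isOpen_lt (by fun_prop) continuous_const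
      exact o1.inter (o2.inter o3)

theorem interior_nonempty : (interior P).Nonempty := by
  refine ⟨![1 / 4, 0], ?_⟩
  rw [interior_P]
  refine ⟨?_, ?_, ?_⟩ <;> norm_num

theorem span_P : affineSpan ℝ P = ⊤ :=
  affineSpan_eq_top_of_nonempty_interior
    (interior_nonempty.mono (interior_mono (subset_convexHull ℝ P)))

theorem dim_P : dimension P = 2 := by
  unfold dimension
  rw [← direction_affineSpan, span_P, AffineSubspace.direction_top, finrank_top]
  simp

theorem intrinsic_P : intrinsicInterior ℝ P = interior P := by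
  apply Subset.antisymm _ interior_subset_intrinsicInterior
  have hopen : IsOpen (affineSpan ℝ P : Set (Fin 2 → ℝ)) := by
    rw [span_P, AffineSubspace.top_coe]; exact isOpen_univ
  have hmap := hopen.isOpenMap_subtype_val
  apply interior_maximal intrinsicInterior_subset
  exact hmap _ isOpen_interior

theorem mem_int (x : Fin 2 → ℝ) : x ∈ intrinsicInterior ℝ P ↔
    0 < x 0 ∧ 5 * x 0 - x 1 < 2 ∧ 3 * x 0 + x 1 < 2 := by
  rw [intrinsic_P, interior_P]; rfl

theorem insideOut : IsInsideOut P {h} where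
  rational := ⟨V, rfl⟩
  dim_pos := by rw [dim_P]; norm_num
  finite := finite_singleton _
  hyperplane := by
    rintro _ rfl
    refine ⟨![1, -1], 0, ?_, ?_⟩
    · intro e
      have := congrFun e 0
      simp at this
    · ext x
      simp only [h, mem_ofPred_eq, Fin.sum_univ_two]
      simp
      constructor
      · intro e; linarith
      · intro e; linarith
  not_contains := by
    rintro _ rfl hP
    have : (![0, 2] : Fin 2 → ℝ) ∈ P := (mem_P _).2 (by norm_num)
    have := hP this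
    simp [h] at this
  transverse := by
    intro S hS hne _
    have hSe : S = {h} := (subset_singleton_iff_eq.1 hS).resolve_left hne.ne_empty
    refine ⟨![1 / 4, 1 / 4], ?_, ?_⟩
    · rw [hSe, sInter_singleton]
      simp [h]
    · rw [mem_int]
      norm_num

/-! ### Counting -/

/-- the integer points of the dilated open triangle -/
def pts (t n : ℕ) : Finset (Σ _ : ℕ, ℕ) :=
  (Finset.range n).sigma (fun j => Finset.range (4 * t - 8 * j - 9))

/-- the point with parameters `(j, m)` -/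
noncomputable def pt (t : ℕ) (a : Σ _ : ℕ, ℕ) : Fin 2 → ℝ :=
  ![((a.1 : ℝ) + 1) / t, ((5 * (a.1 : ℝ) + 6 - 2 * t + a.2)) / t]

theorem pt_inj (t : ℕ) (ht : 1 ≤ t) : Function.Injective (pt t) := by
  rintro ⟨j, m⟩ ⟨j', m'⟩ e
  have ht' : (t : ℝ) ≠ 0 := by positivity
  have e0 := congrFun e 0
  have e1 := congrFun e 1
  simp only [pt, Matrix.cons_val_zero, Matrix.cons_val_one] at e0 e1
  rw [div_left_inj' ht'] at e0 e1
  have a0 : (j : ℝ) = j' := by linarith
  have a1 : (m : ℝ) = m' := by rw [a0] at e1; linarith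
  have b0 : j = j' := by exact_mod_cast a0
  have b1 : m = m' := by exact_mod_cast a1
  rw [b0, b1]

theorem int_lat (t n : ℕ) (hn : t = 2 * n + 1 ∨ t = 2 * n + 2) :
    intrinsicInterior ℝ P ∩ lat 2 t = pt t '' (pts t n : Set (Σ _ : ℕ, ℕ)) := by
  have ht : 1 ≤ t := by omega
  have ht' : (0 : ℝ) < t := by exact_mod_cast ht
  ext x
  constructor
  · rintro ⟨hx, z, hz⟩
    rw [mem_int, hz 0, hz 1] at hx
    obtain ⟨h0, h1, h2⟩ := hx
    have g0 : 0 < z 0 := by
      have := (div_pos_iff_of_pos_right ht').1 h0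
      exact_mod_cast this
    have g1 : 5 * z 0 - z 1 < 2 * t := by
      have e : 5 * ((z 0 : ℝ) / t) - (z 1 : ℝ) / t = (5 * z 0 - z 1) / t := by ring
      rw [e, div_lt_iff₀ ht'] at h1
      exact_mod_cast h1
    have g2 : 3 * z 0 + z 1 < 2 * t := by
      have e : 3 * ((z 0 : ℝ) / t) + (z 1 : ℝ) / t = (3 * z 0 + z 1) / t := by ring
      rw [e, div_lt_iff₀ ht'] at h2
      exact_mod_cast h2
    obtain ⟨j, hj⟩ := Int.eq_ofNat_of_zero_le (show 0 ≤ z 0 - 1 by omega)
    obtain ⟨m, hm⟩ := Int.eq_ofNat_of_zero_le (show 0 ≤ z 1 - (5 * z 0 - 2 * t + 1) by omega)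
    refine ⟨⟨j, m⟩, ?_, ?_⟩
    · rw [Finset.mem_coe]
      simp only [pts, Finset.mem_sigma, Finset.mem_range]
      omega
    · have z0 : z 0 = j + 1 := by omega
      have z1 : z 1 = 5 * j + 6 - 2 * t + m := by omega
      funext k
      fin_cases k
      · simp [pt, hz 0, z0]
      · simp [pt, hz 1, z1]
  · rintro ⟨⟨j, m⟩, hm, rfl⟩
    rw [Finset.mem_coe] at hm
    simp only [pts, Finset.mem_sigma, Finset.mem_range] at hm
    obtain ⟨hj, hm⟩ := hm
    refine ⟨?_, ![(j : ℤ) + 1, 5 * j + 6 - 2 * t + m], ?_⟩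
    · rw [mem_int]
      simp only [pt, Matrix.cons_val_zero, Matrix.cons_val_one]
      refine ⟨by positivity, ?_, ?_⟩
      · have e : 5 * (((j : ℝ) + 1) / t) - (5 * (j : ℝ) + 6 - 2 * t + m) / t = (2 * t - (1 + m)) / t := by
          ring
        rw [e, div_lt_iff₀ ht']
        have : (0 : ℝ) ≤ m := Nat.cast_nonneg m
        linarith
      · have e : 3 * (((j : ℝ) + 1) / t) + (5 * (j : ℝ) + 6 - 2 * t + m) / t
            = (8 * j + 9 + m - 2 * t) / t := by
          ring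
        rw [e, div_lt_iff₀ ht']
        have h3 : 8 * j + 9 + m < 4 * t := by omega
        have : (8 * (j : ℝ) + 9 + m) < 4 * t := by exact_mod_cast h3
        linarith
    · intro k
      fin_cases k
      · simp [pt]
      · simp [pt]

theorem card_pts (t n : ℕ) (hn : t = 2 * n + 1 ∨ t = 2 * n + 2) :
    ((pts t n).card : ℤ) = n * (4 * t - 9) - 4 * n * (n - 1) := by
  unfold pts
  rw [Finset.card_sigma]
  simp only [Finset.card_range]
  have : ∀ m ≤ n, ((∑ j ∈ Finset.range m, (4 * t - 8 * j - 9) : ℕ) : ℤ)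
      = m * (4 * t - 9) - 4 * m * (m - 1) := by
    intro m hm
    induction m with
    | zero => simp
    | succ m ih =>
      rw [Finset.sum_range_succ, Nat.cast_add, ih (by omega)]
      have : ((4 * t - 8 * m - 9 : ℕ) : ℤ) = 4 * t - 8 * m - 9 := by omega
      rw [this]
      push_cast
      ring
  exact this n le_rfl

/-- the points on the line -/
theorem line_lat (t n : ℕ) (hn : t = 2 * n + 1 ∨ t = 2 * n + 2) :
    (intrinsicInterior ℝ P ∩ lat 2 t) ∩ h =
      (fun j : ℕ => (![((j : ℝ) + 1) / t, ((j : ℝ) + 1) / t] : Fin 2 → ℝ)) '' (Finset.range n : Set ℕ) := by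
  have ht : 1 ≤ t := by omega
  have ht' : (0 : ℝ) < t := by exact_mod_cast ht
  ext x
  constructor
  · rintro ⟨⟨hx, z, hz⟩, hxh⟩
    have hxh' : x 0 = x 1 := hxh
    rw [mem_int, ← hxh', hz 0] at hx
    obtain ⟨h0, h1, h2⟩ := hx
    have g0 : 0 < z 0 := by
      have := (div_pos_iff_of_pos_right ht').1 h0
      exact_mod_cast this
    have g1 : 4 * z 0 < 2 * t := by
      have e : 5 * ((z 0 : ℝ) / t) - (z 0 : ℝ) / t = (4 * z 0) / t := by ring
      rw [e, div_lt_iff₀ ht'] at h1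
      exact_mod_cast h1
    obtain ⟨j, hj⟩ := Int.eq_ofNat_of_zero_le (show 0 ≤ z 0 - 1 by omega)
    refine ⟨j, ?_, ?_⟩
    · rw [Finset.mem_coe, Finset.mem_range]
      omega
    · have z0 : z 0 = j + 1 := by omega
      funext k
      fin_cases k
      · simp [hz 0, z0]
      · simp [← hxh', hz 0, z0]
  · rintro ⟨j, hj, rfl⟩
    rw [Finset.mem_coe, Finset.mem_range] at hj
    refine ⟨⟨?_, ![(j : ℤ) + 1, j + 1], ?_⟩, ?_⟩
    · rw [mem_int]
      simp only [Matrix.cons_val_zero, Matrix.cons_val_one]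
      have h3 : 4 * (j + 1) < 2 * t := by omega
      have h4 : 4 * ((j : ℝ) + 1) < 2 * t := by exact_mod_cast h3
      refine ⟨by positivity, ?_, ?_⟩
      · have e : 5 * (((j : ℝ) + 1) / t) - ((j : ℝ) + 1) / t = (4 * (j + 1)) / t := by ring
        rw [e, div_lt_iff₀ ht']; exact h4
      · have e : 3 * (((j : ℝ) + 1) / t) + ((j : ℝ) + 1) / t = (4 * (j + 1)) / t := by ring
        rw [e, div_lt_iff₀ ht']; exact h4
    · intro k
      fin_cases k
      · simp
      · simp
    · simp [h]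

theorem Ew_eq (t n : ℕ) (hn : t = 2 * n + 1 ∨ t = 2 * n + 2) :
    (Ew P t : ℤ) = n * (4 * t - 9) - 4 * n * (n - 1) := by
  unfold Ew
  rw [int_lat t n hn, ncard_image_of_injective _ (pt_inj t (by omega)), ncard_coe_finset, card_pts t n hn]

theorem Eo_eq (t n : ℕ) (hn : t = 2 * n + 1 ∨ t = 2 * n + 2) :
    (Eo P {h} t : ℤ) = n * (4 * t - 9) - 4 * n * (n - 1) - n := by
  have ht : 1 ≤ t := by omega
  have ht' : (0 : ℝ) < t := by exact_mod_cast ht
  have hfin : (intrinsicInterior ℝ P ∩ lat 2 t).Finite := by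
    rw [int_lat t n hn]
    exact (Finset.finite_toSet _).image _
  have h1 : (intrinsicInterior ℝ P \ ⋃₀ {h}) ∩ lat 2 t
      = (intrinsicInterior ℝ P ∩ lat 2 t) \ ((intrinsicInterior ℝ P ∩ lat 2 t) ∩ h) := by
    rw [sUnion_singleton]
    ext x
    simp only [mem_inter_iff, mem_sdiff]
    tauto
  have h2 : ((intrinsicInterior ℝ P ∩ lat 2 t) ∩ h).ncard = n := by
    rw [line_lat t n hn, ncard_image_of_injective, ncard_coe_finset, Finset.card_range]
    intro i j hij
    have e0 := congrFun hij 0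
    simp only [Matrix.cons_val_zero] at e0
    rw [div_left_inj' ht'.ne'] at e0
    have : (i : ℝ) = j := by linarith
    exact_mod_cast this
  have h3 : (Eo P {h} t : ℤ) = (Ew P t : ℤ) - n := by
    unfold Eo Ew
    rw [h1]
    have := ncard_sdiff_add_ncard_of_subset (inter_subset_left (s := intrinsicInterior ℝ P ∩ lat 2 t) (t := h)) hfin
    rw [h2] at this
    omega
  rw [h3, Ew_eq t n hn]

/-! ### Quasipolynomials -/

theorem add_mul_period {f : ℕ → ℚ} {N : ℕ} (hf : ∀ t, f (t + N) = f t) (m t : ℕ) :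
    f (t + m * N) = f t := by
  induction m with
  | zero => simp
  | succ m ih => rw [Nat.succ_mul, ← add_assoc, hf, ih]

/-- the coefficient functions of a quasipolynomial are unique -/
theorem IsQuasi.unique {E : ℕ → ℕ} {δ : ℕ} {c c' : ℕ → ℕ → ℚ} (hc : IsQuasi E δ c)
    (hc' : IsQuasi E δ c') : ∀ k ≤ δ, c k = c' k := by
  obtain ⟨h1, h2⟩ := hc
  obtain ⟨h1', h2'⟩ := hc'
  choose! N hN hNp using h1
  choose! N' hN' hNp' using h1'
  set M : ℕ := ∏ k ∈ Finset.range (δ + 1), (N k * N' k) with hM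
  have hMpos : 0 < M := Finset.prod_pos (fun k hk => by
    have := Finset.mem_range.1 hk
    exact Nat.mul_pos (hN k (by omega)) (hN' k (by omega)))
  have per : ∀ k ≤ δ, ∀ t, c k (t + M) = c k t := by
    intro k hk t
    obtain ⟨q, hq⟩ : N k ∣ M :=
      (dvd_mul_right _ _).trans (Finset.dvd_prod_of_mem _ (Finset.mem_range.2 (by omega)))
    rw [hq, mul_comm]
    exact add_mul_period (hNp k hk) q t
  have per' : ∀ k ≤ δ, ∀ t, c' k (t + M) = c' k t := by
    intro k hk t
    obtain ⟨q, hq⟩ : N' k ∣ M :=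
      (dvd_mul_left _ _).trans (Finset.dvd_prod_of_mem _ (Finset.mem_range.2 (by omega)))
    rw [hq, mul_comm]
    exact add_mul_period (hNp' k hk) q t
  intro k hk
  funext t
  let p : Polynomial ℚ := ∑ k ∈ Finset.range (δ + 1), Polynomial.C (c k t) * Polynomial.X ^ k
  let p' : Polynomial ℚ := ∑ k ∈ Finset.range (δ + 1), Polynomial.C (c' k t) * Polynomial.X ^ k
  have hpp : p = p' := by
    refine Polynomial.eq_of_infinite_eval_eq p p' ?_
    refine (Set.infinite_range_of_injective (f := fun m : ℕ => ((t + (m + 1) * M : ℕ) : ℚ)) ?_).mono ?_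
    · intro a b hab
      have hab' : t + (a + 1) * M = t + (b + 1) * M := Nat.cast_injective (R := ℚ) hab
      have : (a + 1) * M = (b + 1) * M := by omega
      have := Nat.eq_of_mul_eq_mul_right hMpos this
      omega
    · rintro _ ⟨m, rfl⟩
      have hpos : 1 ≤ t + (m + 1) * M := by nlinarith
      have e1 := h2 _ hpos
      have e2 := h2' _ hpos
      rw [e1] at e2
      change p.eval ((t + (m + 1) * M : ℕ) : ℚ) = p'.eval ((t + (m + 1) * M : ℕ) : ℚ)
      simp only [p, p', Polynomial.eval_finsetSum, Polynomial.eval_mul, Polynomial.eval_C,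
        Polynomial.eval_pow, Polynomial.eval_X]
      have l : ∀ k ∈ Finset.range (δ + 1), c k (t + (m + 1) * M) * ((t + (m + 1) * M : ℕ) : ℚ) ^ k
          = c k t * ((t + (m + 1) * M : ℕ) : ℚ) ^ k := by
        intro k hk
        rw [add_mul_period (per k (by have := Finset.mem_range.1 hk; omega))]
      have l' : ∀ k ∈ Finset.range (δ + 1), c' k (t + (m + 1) * M) * ((t + (m + 1) * M : ℕ) : ℚ) ^ k
          = c' k t * ((t + (m + 1) * M : ℕ) : ℚ) ^ k := by
        intro k hk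
        rw [add_mul_period (per' k (by have := Finset.mem_range.1 hk; omega))]
      rw [Finset.sum_congr rfl l, Finset.sum_congr rfl l'] at e2
      exact e2
  have hcoef : ∀ (e : ℕ → ℚ), (∑ k ∈ Finset.range (δ + 1),
      Polynomial.C (e k) * Polynomial.X ^ k).coeff k = e k := by
    intro e
    rw [Polynomial.finsetSum_coeff]
    simp only [Polynomial.coeff_C_mul_X_pow]
    rw [Finset.sum_ite_eq, if_pos (Finset.mem_range.2 (by omega))]
  have := congrArg (fun q => Polynomial.coeff q k) hpp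
  simp only [p, p'] at this
  rw [hcoef, hcoef] at this
  exact this

/-- coefficients of `E°` -/
def cO : ℕ → ℕ → ℚ
  | 0, _ => 2
  | 1, _ => -3
  | 2, _ => 1
  | _, _ => 0

/-- coefficients of `E^w` -/
def cW : ℕ → ℕ → ℚ
  | 0, t => if t % 2 = 1 then 3 / 2 else 1
  | 1, _ => -5 / 2
  | 2, _ => 1
  | _, _ => 0

theorem quasi_cO : IsQuasi (Eo P {h}) 2 cO := by
  refine ⟨fun k hk => ⟨1, one_pos, fun t => ?_⟩, fun t ht => ?_⟩
  · interval_cases k <;> rfl
  · obtain ⟨n, hn⟩ : ∃ n, t = 2 * n + 1 ∨ t = 2 * n + 2 := ⟨(t - 1) / 2, by omega⟩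
    have e := Eo_eq t n hn
    have e' : (Eo P {h} t : ℚ) = n * (4 * t - 9) - 4 * n * (n - 1) - n := by exact_mod_cast e
    rw [e']
    simp only [Finset.sum_range_succ, Finset.sum_range_zero, cO]
    rcases hn with hn | hn
    · subst hn; push_cast; ring
    · subst hn; push_cast; ring

theorem quasi_cW : IsQuasi (Ew P) 2 cW := by
  refine ⟨fun k hk => ⟨2, two_pos, fun t => ?_⟩, fun t ht => ?_⟩
  · interval_cases k
    · simp only [cW]
      rw [Nat.add_mod_right]
    · rfl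
    · rfl
  · obtain ⟨n, hn⟩ : ∃ n, t = 2 * n + 1 ∨ t = 2 * n + 2 := ⟨(t - 1) / 2, by omega⟩
    have e := Ew_eq t n hn
    have e' : (Ew P t : ℚ) = n * (4 * t - 9) - 4 * n * (n - 1) := by exact_mod_cast e
    rw [e']
    simp only [Finset.sum_range_succ, Finset.sum_range_zero, cW]
    rcases hn with hn | hn
    · rw [if_pos (by omega)]
      subst hn; push_cast; ring
    · rw [if_neg (by omega)]
      subst hn; push_cast; ring

theorem minPeriod_const (a : ℚ) : IsMinPeriod (fun _ => a) 1 :=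
  ⟨⟨one_pos, fun _ => rfl⟩, fun _ hN => hN.1⟩

theorem minPeriod_cW0 : IsMinPeriod (cW 0) 2 := by
  refine ⟨⟨two_pos, fun t => ?_⟩, fun N hN => ?_⟩
  · simp only [cW]
    rw [Nat.add_mod_right]
  · obtain ⟨h0, h1⟩ := hN
    by_contra hlt
    have hN1 : N = 1 := by omega
    subst hN1
    have := h1 0
    norm_num [cW] at this

/-- **Counterexample to Q1.** For the triangle `P = conv{(0,-2),(0,2),(1/2,1/2)}` and the line
`x = y`, in dimension `δ = 2`, one has `p_0 = p_1 = 1`, `p^w_1 = 1` but `p^w_0 = 2`, so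
`p_1 p^w_0 = 2` does not divide `p_0 p^w_1 = 1`. -/
theorem result : ¬ Conjecture ∧ ∃ (P : Set (Fin 2 → ℝ)) (H : Set (Set (Fin 2 → ℝ))),
    IsInsideOut P H ∧ dimension P = 2 ∧
    (∃ c cw, IsQuasi (Eo P H) 2 c ∧ IsQuasi (Ew P) 2 cw) ∧
    ∀ c cw, IsQuasi (Eo P H) 2 c → IsQuasi (Ew P) 2 cw →
      IsMinPeriod (c 0) 1 ∧ IsMinPeriod (c 1) 1 ∧ IsMinPeriod (cw 0) 2 ∧ IsMinPeriod (cw 1) 1 := by
  refine ⟨fun hC => ?_, P, {h}, insideOut, dim_P, ⟨cO, cW, quasi_cO, quasi_cW⟩, ?_⟩
  · have := hC 2 P {h} insideOut cO cW (by rw [dim_P]; exact quasi_cO)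
      (by rw [dim_P]; exact quasi_cW) (fun _ => 1) (fun k => if k = 0 then 2 else 1)
      (by
        intro k hk
        rw [dim_P] at hk
        interval_cases k <;> exact minPeriod_const _)
      (by
        intro k hk
        rw [dim_P] at hk
        interval_cases k
        · exact minPeriod_cW0
        · exact minPeriod_const _
        · exact minPeriod_const _)
      1 le_rfl (by rw [dim_P]; norm_num)
    norm_num at this
  · intro c cw hc hcw
    rw [hc.unique quasi_cO 0 (by norm_num), hc.unique quasi_cO 1 (by norm_num),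
      hcw.unique quasi_cW 0 (by norm_num), hcw.unique quasi_cW 1 (by norm_num)]
    exact ⟨minPeriod_const _, minPeriod_const _, minPeriod_cW0, minPeriod_const _⟩

end Pool.Agent.Results.MP_76d2cf_co.PeriodRatio
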